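import Pool.Agent.N586.BP.Core

/-! # The limit points of the normalised Birch and Swinnerton-Dyer product -/

set_option autoImplicit false

namespace Pool.Agent.T9h58.BSD

open MeasureTheory Filter Topology Set Classical
open Pool.Agent.W263.BSD Pool.Agent.N586.BP
open scoped ENNReal

variable {a b : ℤ} {F : ℂ → ℂ}

/-! ### Omega results from a zero off the line -/

theorem omega_up (hF : IsLSeries a b F) {s : ℂ} (hs : F s = 0) {θ : ℝ} (hθ0 : 0 ≤ θ)
    (hθ : θ < s.re - 1) : ∃ᶠ x : ℝ in atTop, x ^ θ < Real.log (bsdProduct a b x) := by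
  by_contra hcon
  rw [not_frequently] at hcon
  have D := data 0 hF
  have h1 := Real.tendsto_exp_atTop.eventually hcon
  obtain ⟨U, hU⟩ := eventually_atTop.mp h1
  set V : ℝ := max U 4 with hV
  set K : ℝ := Real.exp (2 * V) + Real.exp V + |kap a b| with hK
  set κ : ℝ → ℝ := fun u => ex θ u + K * ex 0 u with hκ
  have hκm : Measurable κ := (ex_meas _).add ((ex_meas 0).const_mul _)
  have hκi : ∀ w' > θ, LInt κ w' := fun w' hw' =>
    (ex_LInt hw').add ((ex_LInt (by linarith)).const_mul _)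
  have hconv : ∀ w > θ, LInt (aak (SS a b) (Ap a b) 0) w := by
    refine D.core_upper hθ0 hκm hκi fun u hu => ?_
    rw [hκ]
    simp only [ex, zero_mul, Real.exp_zero, mul_one]
    have hk := abs_nonneg (kap a b)
    rcases le_or_gt V u with h2 | h2
    · have h3 := not_lt.mp (hU u ((le_max_left _ _).trans h2))
      rw [log_bsd_eq ((le_max_right _ _).trans h2), ← Real.exp_mul, mul_comm u θ] at h3
      have h4 := neg_abs_le (kap a b)
      have h5 := Real.exp_pos (2 * V)
      have h6 := Real.exp_pos V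
      linarith
    · have h3 := (abs_le.mp (hloc a b 0 u)).2
      have h5 : Real.exp u ≤ Real.exp V := Real.exp_le_exp.mpr h2.le
      have h5' : Real.exp (2 * u) ≤ Real.exp (2 * V) := Real.exp_le_exp.mpr (by linarith)
      have := Real.exp_pos (θ * u)
      linarith
  have h2 := D.eq_of_conv hθ0 hconv (s - 1) (by simpa using hθ)
  unfold PhiF at h2
  rw [add_sub_cancel, hs, zero_mul] at h2
  exact Complex.exp_ne_zero _ h2.symm

theorem omega_down (hF : IsLSeries a b F) (hne : ∀ t : ℝ, 1 < t → F t ≠ 0) {s : ℂ} (hs : F s = 0)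
    {θ : ℝ} (hθ0 : 0 ≤ θ)
    (hθ : θ < s.re - 1) : ∃ᶠ x : ℝ in atTop, Real.log (bsdProduct a b x) < -x ^ θ := by
  by_contra hcon
  rw [not_frequently] at hcon
  have D := data 0 hF
  have h1 := Real.tendsto_exp_atTop.eventually hcon
  obtain ⟨U, hU⟩ := eventually_atTop.mp h1
  set V : ℝ := max U 4 with hV
  set K : ℝ := Real.exp (2 * V) + Real.exp V + |kap a b| with hK
  set κ : ℝ → ℝ := fun u => -(ex θ u + K * ex 0 u) with hκ
  have hκm : Measurable κ := ((ex_meas _).add ((ex_meas 0).const_mul _)).neg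
  have hκi : ∀ w' > θ, LInt κ w' := fun w' hw' =>
    ((ex_LInt hw').add ((ex_LInt (by linarith)).const_mul _)).neg
  have hconv : ∀ w > θ, LInt (aak (SS a b) (Ap a b) 0) w := by
    refine D.core hθ0 hκm hκi (ε := -1) (Or.inr rfl) (fun u hu => ?_)
      (fun t ht _ => phi_ne hne t (by linarith))
    rw [hκ]
    simp only [ex, zero_mul, Real.exp_zero, mul_one]
    have hk := abs_nonneg (kap a b)
    rcases le_or_gt V u with h2 | h2
    · have h3 := not_lt.mp (hU u ((le_max_left _ _).trans h2))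
      rw [log_bsd_eq ((le_max_right _ _).trans h2), ← Real.exp_mul, mul_comm u θ] at h3
      have h4 := le_abs_self (kap a b)
      have h5 := Real.exp_pos (2 * V)
      have h6 := Real.exp_pos V
      linarith
    · have h3 := (abs_le.mp (hloc a b 0 u)).1
      have h5 : Real.exp u ≤ Real.exp V := Real.exp_le_exp.mpr h2.le
      have h5' : Real.exp (2 * u) ≤ Real.exp (2 * V) := Real.exp_le_exp.mpr (by linarith)
      have := Real.exp_pos (θ * u)
      linarith
  have h2 := D.eq_of_conv hθ0 hconv (s - 1) (by simpa using hθ)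
  unfold PhiF at h2
  rw [add_sub_cancel, hs, zero_mul] at h2
  exact Complex.exp_ne_zero _ h2.symm

/-! ### The normalised product -/

/-- `P(x) / (log x) ^ r` as an element of `[0, ∞]` -/
noncomputable def nrm (a b : ℤ) (r : ℕ) (x : ℝ) : ℝ≥0∞ :=
  ENNReal.ofReal (bsdProduct a b x / Real.log x ^ r)

/-- the limit points of the normalised product in `[0, ∞]` -/
def limSet (a b : ℤ) (r : ℕ) : Set ℝ≥0∞ := {v | MapClusterPt v atTop (nrm a b r)}

/-- the logarithm of the normalised product -/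
noncomputable def lg (a b : ℤ) (r : ℕ) (x : ℝ) : ℝ :=
  Real.log (bsdProduct a b x) - r * Real.log (Real.log x)

theorem nrm_eq {r : ℕ} {x : ℝ} (hx : 1 < x) : nrm a b r x = ENNReal.ofReal (Real.exp (lg a b r x)) := by
  unfold nrm lg
  have h1 := Real.log_pos hx
  rw [Real.exp_sub, Real.exp_log (bsdProduct_pos x), ← Real.log_pow, Real.exp_log (pow_pos h1 r)]

theorem limSet_closed (r : ℕ) : IsClosed (limSet a b r) := isClosed_setOf_clusterPt

/-- `log P(N + 1) - log P(N)` tends to `0` -/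
theorem diff_tendsto (hH : Hasse a b) (r : ℕ) :
    Tendsto (fun n : ℕ => lg a b r ((n + 1 : ℕ) : ℝ) - lg a b r (n : ℝ)) atTop (𝓝 0) := by
  obtain ⟨D, hD⟩ := hH
  -- the product
  have h1 : Tendsto (fun n : ℕ => Real.log (bsdProduct a b ((n + 1 : ℕ) : ℝ)) -
      Real.log (bsdProduct a b (n : ℝ))) atTop (𝓝 0) := by
    have hb : Tendsto (fun n : ℕ => 2 / √((n + 1 : ℕ) : ℝ) + 20 / ((n + 1 : ℕ) : ℝ)) atTop (𝓝 (0 + 0)) := by
      refine Tendsto.add ?_ ?_
      · refine Tendsto.const_div_atTop ?_ _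
        exact Real.tendsto_sqrt_atTop.comp (tendsto_natCast_atTop_atTop.comp (tendsto_add_atTop_nat 1))
      · refine Tendsto.const_div_atTop ?_ _
        exact tendsto_natCast_atTop_atTop.comp (tendsto_add_atTop_nat 1)
    rw [add_zero] at hb
    refine squeeze_zero_norm' ?_ hb
    filter_upwards [eventually_ge_atTop (max 100 D)] with n hn
    have hn1 : 100 ≤ n := (le_max_left _ _).trans hn
    have hnD : D ≤ n := (le_max_right _ _).trans hn
    rw [log_sub (by push_cast; linarith), Nat.floor_natCast, Nat.floor_natCast, Real.norm_eq_abs]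
    have hI : Finset.Ioc n (n + 1) = {n + 1} := by
      ext m
      rw [Finset.mem_Ioc, Finset.mem_singleton]
      omega
    rw [hI, Finset.filter_singleton]
    have hn0 : (0 : ℝ) < ((n + 1 : ℕ) : ℝ) := by positivity
    split_ifs with hg
    · rw [Finset.sum_singleton]
      have h2 := hD (n + 1) hg.1 (by omega)
      have h3 := one_factor (a := a) (b := b) (p := n + 1) (by omega) h2
      have h4 : |(((n + 1 : ℕ) : ℝ) - pointCount a b (n + 1)) / ((n + 1 : ℕ) : ℝ)| ≤
          2 / √((n + 1 : ℕ) : ℝ) := by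
        rw [abs_div, abs_of_pos hn0, div_le_div_iff₀ hn0 (Real.sqrt_pos.2 hn0)]
        calc |((n + 1 : ℕ) : ℝ) - pointCount a b (n + 1)| * √((n + 1 : ℕ) : ℝ)
            ≤ (2 * √((n + 1 : ℕ) : ℝ)) * √((n + 1 : ℕ) : ℝ) :=
              mul_le_mul_of_nonneg_right h2 (Real.sqrt_nonneg _)
          _ = 2 * ((n + 1 : ℕ) : ℝ) := by rw [mul_assoc, Real.mul_self_sqrt hn0.le]
      have h5 := abs_le.mp h3
      have h6 := abs_le.mp h4
      rw [abs_le]
      constructor <;> linarith [h5.1, h5.2, h6.1, h6.2]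
    · rw [Finset.sum_empty, abs_zero]
      positivity
  -- the logarithms
  have h2 : Tendsto (fun n : ℕ => Real.log (Real.log ((n + 1 : ℕ) : ℝ)) - Real.log (Real.log (n : ℝ)))
      atTop (𝓝 0) := by
    have h3 : Tendsto (fun n : ℕ => 1 / (n : ℝ)) atTop (𝓝 0) := tendsto_one_div_atTop_nhds_zero_nat
    refine squeeze_zero' ?_ ?_ h3
    · filter_upwards [eventually_ge_atTop 3] with n hn
      have hn3 : (3 : ℝ) ≤ n := by exact_mod_cast hn
      have h4 : 0 < Real.log (n : ℝ) := Real.log_pos (by linarith)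
      have h5 : Real.log (n : ℝ) ≤ Real.log ((n + 1 : ℕ) : ℝ) :=
        Real.log_le_log (by linarith) (by push_cast; linarith)
      have := Real.log_le_log h4 h5
      linarith
    · filter_upwards [eventually_ge_atTop 3] with n hn
      have hn3 : (3 : ℝ) ≤ n := by exact_mod_cast hn
      have hn0 : (0 : ℝ) < n := by linarith
      have h4 : 1 ≤ Real.log (n : ℝ) := by
        rw [Real.le_log_iff_exp_le hn0]
        have := Real.exp_one_lt_d9
        linarith
      have h5 : Real.log ((n + 1 : ℕ) : ℝ) ≤ Real.log (n : ℝ) + 1 / n := by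
        have h6 : ((n + 1 : ℕ) : ℝ) = n * (1 + 1 / n) := by push_cast; field_simp
        rw [h6, Real.log_mul hn0.ne' (by positivity)]
        have := Real.log_le_sub_one_of_pos (show 0 < 1 + 1 / (n : ℝ) by positivity)
        linarith
      have h6 : Real.log ((n + 1 : ℕ) : ℝ) ≤ Real.log (n : ℝ) * (1 + 1 / n) := by
        have h7 : (0 : ℝ) ≤ 1 / n := by positivity
        nlinarith
      have h7 : 0 < Real.log ((n + 1 : ℕ) : ℝ) := Real.log_pos (by push_cast; linarith)
      have h8 := Real.log_le_log h7 h6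
      rw [Real.log_mul (by linarith) (by positivity)] at h8
      have h9 := Real.log_le_sub_one_of_pos (show 0 < 1 + 1 / (n : ℝ) by positivity)
      linarith
  have h3 := h1.sub (h2.const_mul (r : ℝ))
  rw [mul_zero, sub_zero] at h3
  refine h3.congr fun n => ?_
  unfold lg
  ring

/-- the value at `x` and at the integral part of `x` -/
theorem floor_tendsto (r : ℕ) :
    Tendsto (fun x : ℝ => lg a b r (⌊x⌋₊ : ℝ) - lg a b r x) atTop (𝓝 0) := by
  have h2 : Tendsto (fun x : ℝ => Real.log (Real.log x) - Real.log (Real.log (⌊x⌋₊ : ℝ)))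
      atTop (𝓝 0) := by
    have h3 : Tendsto (fun x : ℝ => 1 / (⌊x⌋₊ : ℝ)) atTop (𝓝 0) :=
      tendsto_one_div_atTop_nhds_zero_nat.comp tendsto_nat_floor_atTop
    refine squeeze_zero' ?_ ?_ h3
    · filter_upwards [eventually_ge_atTop 3] with x hx
      have hf : (3 : ℝ) ≤ (⌊x⌋₊ : ℝ) := by exact_mod_cast Nat.le_floor (by exact_mod_cast hx)
      have hfx : (⌊x⌋₊ : ℝ) ≤ x := Nat.floor_le (by linarith)
      have h4 : 0 < Real.log (⌊x⌋₊ : ℝ) := Real.log_pos (by linarith)
      have h5 : Real.log (⌊x⌋₊ : ℝ) ≤ Real.log x := Real.log_le_log (by linarith) hfx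
      have := Real.log_le_log h4 h5
      linarith
    · filter_upwards [eventually_ge_atTop 3] with x hx
      have hf : (3 : ℝ) ≤ (⌊x⌋₊ : ℝ) := by exact_mod_cast Nat.le_floor (by exact_mod_cast hx)
      have hn0 : (0 : ℝ) < ⌊x⌋₊ := by linarith
      have hfx : x ≤ (⌊x⌋₊ : ℝ) + 1 := (Nat.lt_floor_add_one x).le
      have h4 : 1 ≤ Real.log (⌊x⌋₊ : ℝ) := by
        rw [Real.le_log_iff_exp_le hn0]
        have := Real.exp_one_lt_d9
        linarith
      have h5 : Real.log x ≤ Real.log (⌊x⌋₊ : ℝ) + 1 / ⌊x⌋₊ := by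
        have h6 : (⌊x⌋₊ : ℝ) + 1 = ⌊x⌋₊ * (1 + 1 / ⌊x⌋₊) := by field_simp
        have h7 : Real.log x ≤ Real.log ((⌊x⌋₊ : ℝ) + 1) := Real.log_le_log (by linarith) hfx
        rw [h6, Real.log_mul hn0.ne' (by positivity)] at h7
        have := Real.log_le_sub_one_of_pos (show 0 < 1 + 1 / (⌊x⌋₊ : ℝ) by positivity)
        linarith
      have h6 : Real.log x ≤ Real.log (⌊x⌋₊ : ℝ) * (1 + 1 / ⌊x⌋₊) := by
        have h7 : (0 : ℝ) ≤ 1 / ⌊x⌋₊ := by positivity
        nlinarith
      have h7 : 0 < Real.log x := Real.log_pos (by linarith)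
      have h8 := Real.log_le_log h7 h6
      rw [Real.log_mul (by linarith) (by positivity)] at h8
      have h9 := Real.log_le_sub_one_of_pos (show 0 < 1 + 1 / (⌊x⌋₊ : ℝ) by positivity)
      linarith
  have h3 := h2.const_mul (r : ℝ)
  rw [mul_zero] at h3
  refine h3.congr fun x => ?_
  have hP : bsdProduct a b (⌊x⌋₊ : ℝ) = bsdProduct a b x := by
    unfold bsdProduct
    rw [Nat.floor_natCast]
  unfold lg
  rw [hP]
  ring

/-- the discrete intermediate value theorem along a sequence with small steps -/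
theorem ivt {l : ℕ → ℝ} (h : Tendsto (fun n => l (n + 1) - l n) atTop (𝓝 0)) {c : ℝ}
    (h1 : ∀ η : ℝ, 0 < η → ∃ᶠ n in atTop, l n < c + η)
    (h2 : ∀ η : ℝ, 0 < η → ∃ᶠ n in atTop, c - η < l n) {η : ℝ} (hη : 0 < η) :
    ∃ᶠ n in atTop, |l n - c| ≤ η := by
  obtain ⟨N₀, hN₀⟩ := Metric.tendsto_atTop.mp h η hη
  rw [frequently_atTop]
  intro N
  obtain ⟨n₁, hn₁, h3⟩ := (frequently_atTop.mp (h1 η hη)) (max N N₀)
  by_cases h4 : c - η ≤ l n₁
  · exact ⟨n₁, (le_max_left _ _).trans hn₁, by rw [abs_le]; constructor <;> linarith⟩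
  · push Not at h4
    have hex : ∃ m, n₁ ≤ m ∧ c - η < l m := by
      obtain ⟨m, hm, h5⟩ := (frequently_atTop.mp (h2 η hη)) n₁
      exact ⟨m, hm, h5⟩
    have hsp := Nat.find_spec hex
    set m := Nat.find hex with hm
    have hne : m ≠ n₁ := by
      intro e
      rw [e] at hsp
      linarith [hsp.2]
    have hlt : n₁ < m := lt_of_le_of_ne hsp.1 (Ne.symm hne)
    obtain ⟨k, hk⟩ : ∃ k, m = k + 1 := ⟨m - 1, by omega⟩
    have hmin := Nat.find_min hex (m := k) (by omega)
    have h6 : l k ≤ c - η := by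
      by_contra h7
      push Not at h7
      exact hmin ⟨by omega, h7⟩
    have h7 := hN₀ k (by have := le_max_right N N₀; omega)
    rw [Real.dist_eq, sub_zero, ← hk] at h7
    have h8 := (abs_lt.mp h7).2
    refine ⟨m, by have := le_max_left N N₀; omega, ?_⟩
    rw [abs_le]
    constructor <;> linarith [hsp.2]

/-- a limit is the only limit point -/
theorem tendsto_nhds_unique_of_frequently_eq_aux {f : ℝ → ℝ≥0∞} {v w : ℝ≥0∞}
    (h : Tendsto f atTop (𝓝 w)) (hv : MapClusterPt v atTop f) : v = w := by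
  by_contra hne
  obtain ⟨U, V, hU, hV, hvU, hwV, hd⟩ := t2_separation hne
  have h1 := (mapClusterPt_iff_frequently.mp hv) U (hU.mem_nhds hvU)
  have h2 := h.eventually (hV.mem_nhds hwV)
  obtain ⟨x, hx1, hx2⟩ := (h1.and_eventually h2).exists
  exact (Set.disjoint_left.mp hd) hx1 hx2

/-- in a compact space a function with only one limit point converges -/
theorem tendsto_of_unique_cluster {f : ℝ → ℝ≥0∞} {w : ℝ≥0∞}
    (h : ∀ v, MapClusterPt v atTop f → v = w) : Tendsto f atTop (𝓝 w) := by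
  rw [tendsto_nhds]
  intro U hU hw
  by_contra hcon
  have h1 : ∃ᶠ x in atTop, f x ∈ Uᶜ := by
    rw [Filter.Frequently]
    intro h2
    apply hcon
    refine h2.mono fun x hx => ?_
    exact not_not.1 hx
  obtain ⟨v, hv1, hv2⟩ := hU.isClosed_compl.isCompact.exists_mapClusterPt_of_frequently h1
  have := h v hv2
  subst this
  exact hv1 hw

/-- from frequent upper and lower bounds to a limit point -/
theorem mem_of_frequently (hH : Hasse a b) {r : ℕ} {c : ℝ}
    (h1 : ∀ η : ℝ, 0 < η → ∃ᶠ x in atTop, lg a b r x < c + η)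
    (h2 : ∀ η : ℝ, 0 < η → ∃ᶠ x in atTop, c - η < lg a b r x) :
    ENNReal.ofReal (Real.exp c) ∈ limSet a b r := by
  have hfl := floor_tendsto (a := a) (b := b) r
  have key : ∀ η : ℝ, 0 < η → ∃ᶠ n : ℕ in atTop, |lg a b r (n : ℝ) - c| ≤ η := by
    intro η hη
    refine ivt (l := fun n : ℕ => lg a b r (n : ℝ)) (diff_tendsto hH r) (fun η' hη' => ?_) (fun η' hη' => ?_) hη
    · have h3 := (h1 (η' / 2) (half_pos hη')).and_eventually
        (Metric.tendsto_nhds.mp hfl (η' / 2) (half_pos hη'))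
      have h4 : ∃ᶠ x : ℝ in atTop, lg a b r ((⌊x⌋₊ : ℕ) : ℝ) < c + η' := by
        refine h3.mono fun x hx => ?_
        have := (abs_lt.mp (by simpa [Real.dist_eq] using hx.2)).2
        linarith [hx.1]
      exact tendsto_nat_floor_atTop.frequently h4
    · have h3 := (h2 (η' / 2) (half_pos hη')).and_eventually
        (Metric.tendsto_nhds.mp hfl (η' / 2) (half_pos hη'))
      have h4 : ∃ᶠ x : ℝ in atTop, c - η' < lg a b r ((⌊x⌋₊ : ℕ) : ℝ) := by
        refine h3.mono fun x hx => ?_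
        have := (abs_lt.mp (by simpa [Real.dist_eq] using hx.2)).1
        linarith [hx.1]
      exact tendsto_nat_floor_atTop.frequently h4
  show MapClusterPt _ _ _
  rw [mapClusterPt_iff_frequently]
  intro S hS
  have hc : Continuous fun y : ℝ => ENNReal.ofReal (Real.exp y) :=
    ENNReal.continuous_ofReal.comp Real.continuous_exp
  have h3 := hc.continuousAt.preimage_mem_nhds hS
  obtain ⟨δ, hδ, hball⟩ := Metric.mem_nhds_iff.mp h3
  have h4 := key (δ / 2) (half_pos hδ)
  have h5 : ∃ᶠ n : ℕ in atTop, nrm a b r (n : ℝ) ∈ S := by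
    refine (h4.and_eventually (eventually_gt_atTop 1)).mono fun n hn => ?_
    rw [nrm_eq (by exact_mod_cast hn.2)]
    apply hball
    rw [Metric.mem_ball, Real.dist_eq]
    linarith [hn.1]
  exact tendsto_natCast_atTop_atTop.frequently h5

/-- the set of the limit points is an interval -/
theorem limSet_ordConnected (hH : Hasse a b) (r : ℕ) : (limSet a b r).OrdConnected := by
  refine ⟨fun v₁ hv₁ v₂ hv₂ v hv => ?_⟩
  rcases eq_or_lt_of_le hv.1 with h | h1
  · rw [← h]; exact hv₁
  rcases eq_or_lt_of_le hv.2 with h | h2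
  · rw [h]; exact hv₂
  have hv0 : v ≠ 0 := (lt_of_le_of_lt bot_le h1).ne'
  have hvt : v ≠ ∞ := (lt_of_lt_of_le h2 le_top).ne
  have hvp : 0 < v.toReal := ENNReal.toReal_pos hv0 hvt
  have hve : ENNReal.ofReal (Real.exp (Real.log v.toReal)) = v := by
    rw [Real.exp_log hvp, ENNReal.ofReal_toReal hvt]
  rw [← hve]
  have hf1 : ∃ᶠ x in atTop, nrm a b r x < v := by
    have := (mapClusterPt_iff_frequently.mp hv₁) (Iio v) (Iio_mem_nhds h1)
    exact this
  have hf2 : ∃ᶠ x in atTop, v < nrm a b r x := by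
    have := (mapClusterPt_iff_frequently.mp hv₂) (Ioi v) (Ioi_mem_nhds h2)
    exact this
  refine mem_of_frequently hH (fun η hη => ?_) (fun η hη => ?_)
  · refine (hf1.and_eventually (eventually_gt_atTop 1)).mono fun x hx => ?_
    obtain ⟨h3, h4⟩ := hx
    rw [nrm_eq h4, ENNReal.ofReal_lt_iff_lt_toReal (Real.exp_pos _).le hvt] at h3
    have h5 := (Real.lt_log_iff_exp_lt hvp).mpr h3
    linarith
  · refine (hf2.and_eventually (eventually_gt_atTop 1)).mono fun x hx => ?_
    obtain ⟨h3, h4⟩ := hx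
    rw [nrm_eq h4, ENNReal.lt_ofReal_iff_toReal_lt hvt] at h3
    have h5 := (Real.log_lt_iff_lt_exp hvp).mpr h3
    linarith

/-! ### Goldfeld's constant -/

theorem star_ratio (hΔ : 4 * a ^ 3 + 27 * b ^ 2 ≠ 0) (hrs : Tendsto (rsSum a b) atTop (𝓝 0)) :
    Tendsto (fun x : ℝ => Real.log (bsdProduct a b x) - Real.log (bsdStar a b x)) atTop
      (𝓝 (Real.log (√2))) := by
  have hc := (corr_tendsto hΔ hrs).neg
  have h1 : -(-(Real.log 2 / 2)) = Real.log (√2) := by
    rw [Real.log_sqrt (by norm_num)]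
    ring
  rw [h1] at hc
  refine hc.congr fun x => ?_
  unfold bsdStar
  rw [Real.log_mul (bsdProduct_pos x).ne' (Real.exp_pos _).ne', Real.log_exp]
  ring

theorem TT_pos {r : ℕ} (hF : IsLSeries a b F) (hr : analyticOrderAt F 1 = r) : 0 < TT F r := by
  obtain ⟨hpos, _⟩ := lead_limit hF.1 hr
  unfold Pool.Agent.N586.BP.TT
  positivity

/-- the normalised product is frequently at least `T - ε` -/
theorem lg_upper (hΔ : 4 * a ^ 3 + 27 * b ^ 2 ≠ 0) (hrs : Tendsto (rsSum a b) atTop (𝓝 0))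
    (hF : IsLSeries a b F) {r : ℕ} (hr : analyticOrderAt F 1 = r) {η : ℝ} (hη : 0 < η) :
    ∃ᶠ x in atTop, Real.log (TT F r) - η < lg a b r x := by
  obtain ⟨hpos, _⟩ := lead_limit hF.1 hr
  obtain ⟨S, hS⟩ : ∃ S : ℝ, S = Real.exp (r * Real.eulerMascheroniConstant) / leadAbs F r := ⟨_, rfl⟩
  have hS0 : 0 < S := by rw [hS]; positivity
  have hTS : Real.log (TT F r) = Real.log (√2) + Real.log S := by
    unfold Pool.Agent.N586.BP.TT
    rw [← hS, Real.log_mul (by positivity) hS0.ne']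
  -- `S - ε = S exp (-η / 2)`
  have hε : 0 < S - S * Real.exp (-(η / 2)) := by
    have : Real.exp (-(η / 2)) < 1 := Real.exp_lt_one_iff.2 (by linarith)
    nlinarith
  have h1 := bracket_up hF hr hε
  rw [← hS] at h1
  have h2 := (star_ratio hΔ hrs).eventually (lt_mem_nhds (show Real.log (√2) - η / 2 < Real.log (√2) by linarith))
  refine (h1.and_eventually (h2.and (eventually_gt_atTop (Real.exp 1)))).mono fun x hx => ?_
  obtain ⟨h3, h4, h5⟩ := hx
  have hx0 : 0 < x := (Real.exp_pos 1).trans h5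
  have hl : 1 < Real.log x := (Real.lt_log_iff_exp_lt hx0).2 h5
  have hlr : 0 < Real.log x ^ r := pow_pos (by linarith) r
  have e1 : S - (S - S * Real.exp (-(η / 2))) = S * Real.exp (-(η / 2)) := by ring
  rw [e1] at h3
  have h6 := Real.log_lt_log (by positivity) h3
  rw [Real.log_mul (by positivity) hlr.ne', Real.log_mul hS0.ne' (Real.exp_pos _).ne', Real.log_exp,
    Real.log_pow] at h6
  unfold lg
  rw [hTS]
  linarith

/-- the normalised product is frequently at most `T + ε` -/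
theorem lg_lower (hΔ : 4 * a ^ 3 + 27 * b ^ 2 ≠ 0) (hrs : Tendsto (rsSum a b) atTop (𝓝 0))
    (hF : IsLSeries a b F) {r : ℕ} (hr : analyticOrderAt F 1 = r) (hne : ∀ s : ℝ, 1 < s → F s ≠ 0)
    {η : ℝ} (hη : 0 < η) :
    ∃ᶠ x in atTop, lg a b r x < Real.log (TT F r) + η := by
  obtain ⟨hpos, _⟩ := lead_limit hF.1 hr
  obtain ⟨S, hS⟩ : ∃ S : ℝ, S = Real.exp (r * Real.eulerMascheroniConstant) / leadAbs F r := ⟨_, rfl⟩
  have hS0 : 0 < S := by rw [hS]; positivity
  have hTS : Real.log (TT F r) = Real.log (√2) + Real.log S := by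
    unfold Pool.Agent.N586.BP.TT
    rw [← hS, Real.log_mul (by positivity) hS0.ne']
  have hε : 0 < S * Real.exp (η / 2) - S := by
    have : 1 < Real.exp (η / 2) := Real.one_lt_exp_iff.2 (by linarith)
    nlinarith
  have h1 := bracket_down hF hr hne hε
  rw [← hS] at h1
  have h2 := (star_ratio hΔ hrs).eventually (gt_mem_nhds (show Real.log (√2) < Real.log (√2) + η / 2 by linarith))
  refine (h1.and_eventually (h2.and (eventually_gt_atTop (Real.exp 1)))).mono fun x hx => ?_
  obtain ⟨h3, h4, h5⟩ := hx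
  have hx0 : 0 < x := (Real.exp_pos 1).trans h5
  have hl : 1 < Real.log x := (Real.lt_log_iff_exp_lt hx0).2 h5
  have hlr : 0 < Real.log x ^ r := pow_pos (by linarith) r
  have e1 : S + (S * Real.exp (η / 2) - S) = S * Real.exp (η / 2) := by ring
  rw [e1] at h3
  have h6 := Real.log_lt_log (bsdStar_pos x) h3
  rw [Real.log_mul (by positivity) hlr.ne', Real.log_mul hS0.ne' (Real.exp_pos _).ne', Real.log_exp,
    Real.log_pow] at h6
  unfold lg
  rw [hTS]
  linarith

theorem T_mem (hΔ : 4 * a ^ 3 + 27 * b ^ 2 ≠ 0) (hrs : Tendsto (rsSum a b) atTop (𝓝 0))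
    (hH : Hasse a b) (hF : IsLSeries a b F) {r : ℕ} (hr : analyticOrderAt F 1 = r)
    (hne : ∀ s : ℝ, 1 < s → F s ≠ 0) : ENNReal.ofReal (TT F r) ∈ limSet a b r := by
  have h := mem_of_frequently hH (r := r) (c := Real.log (TT F r))
    (fun η hη => lg_lower hΔ hrs hF hr hne hη) (fun η hη => lg_upper hΔ hrs hF hr hη)
  rwa [Real.exp_log (TT_pos hF hr)] at h

theorem limSet_nonempty (r : ℕ) : (limSet a b r).Nonempty := by
  obtain ⟨v, -, hv⟩ := isCompact_univ.exists_mapClusterPt_of_frequently (f := nrm a b r) (l := atTop)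
    (Frequently.of_forall fun x => mem_univ _)
  exact ⟨v, hv⟩

/-- some limit point is at least `T` -/
theorem T_le (hΔ : 4 * a ^ 3 + 27 * b ^ 2 ≠ 0) (hrs : Tendsto (rsSum a b) atTop (𝓝 0))
    (hF : IsLSeries a b F) {r : ℕ} (hr : analyticOrderAt F 1 = r) :
    ∃ v ∈ limSet a b r, ENNReal.ofReal (TT F r) ≤ v := by
  have hT := TT_pos hF hr
  refine ⟨sSup (limSet a b r), (limSet_closed r).isCompact.sSup_mem (limSet_nonempty r), ?_⟩
  refine le_of_forall_lt fun w hw => ?_
  -- a real number between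
  obtain ⟨v, hv1, hv2⟩ := exists_between hw
  have hvt : v ≠ ∞ := (lt_of_lt_of_le hv2 le_top).ne
  have hv0 : v ≠ 0 := (lt_of_le_of_lt bot_le hv1).ne'
  have hvp : 0 < v.toReal := ENNReal.toReal_pos hv0 hvt
  have h1 : v.toReal < TT F r := by
    rwa [ENNReal.lt_ofReal_iff_toReal_lt hvt] at hv2
  have hη : 0 < Real.log (TT F r) - Real.log v.toReal := by
    have := Real.log_lt_log hvp h1
    linarith
  have h2 := lg_upper hΔ hrs hF hr hη
  have h3 : ∃ᶠ x in atTop, nrm a b r x ∈ Ici v := by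
    refine (h2.and_eventually (eventually_gt_atTop 1)).mono fun x hx => ?_
    obtain ⟨h4, h5⟩ := hx
    rw [mem_Ici, nrm_eq h5, ENNReal.le_ofReal_iff_toReal_le hvt (Real.exp_pos _).le]
    have h6 : Real.log v.toReal < lg a b r x := by linarith
    exact ((Real.log_lt_iff_lt_exp hvp).1 h6).le
  obtain ⟨u, hu, hu2⟩ := (isClosed_Ici (a := v)).isCompact.exists_mapClusterPt_of_frequently h3
  exact lt_of_lt_of_le hv1 (le_trans hu (le_sSup hu2))

/-- `exp (x ^ θ)` grows faster than the powers of `log x` -/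
theorem pow_log_small {θ : ℝ} (hθ : 0 < θ) (r : ℕ) (K : ℝ) :
    ∀ᶠ x : ℝ in atTop, K + r * Real.log (Real.log x) < x ^ θ := by
  have h1 := (isLittleO_log_rpow_atTop hθ).bound (show (0 : ℝ) < 1 / (4 * (r + 1)) by positivity)
  have h2 := (tendsto_rpow_atTop hθ).eventually (eventually_gt_atTop (2 * |K|))
  filter_upwards [h1, h2, eventually_gt_atTop (Real.exp 1)] with x h3 h4 h5
  have hx0 : 0 < x := (Real.exp_pos 1).trans h5
  have hl : 1 < Real.log x := (Real.lt_log_iff_exp_lt hx0).2 h5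
  rw [Real.norm_of_nonneg (by linarith), Real.norm_of_nonneg (by positivity)] at h3
  have h6 : Real.log (Real.log x) ≤ Real.log x :=
    (Real.log_le_sub_one_of_pos (by linarith)).trans (by linarith)
  have h7 : (r : ℝ) * Real.log (Real.log x) ≤ x ^ θ / 4 := by
    have hr0 : (0 : ℝ) ≤ r := by positivity
    calc (r : ℝ) * Real.log (Real.log x) ≤ (r + 1) * Real.log x := by
          have : 0 ≤ Real.log (Real.log x) := Real.log_nonneg hl.le
          nlinarith
      _ ≤ (r + 1) * (1 / (4 * (r + 1)) * x ^ θ) := mul_le_mul_of_nonneg_left h3 (by positivity)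
      _ = _ := by field_simp
  have h8 := le_abs_self K
  have h9 : 0 < x ^ θ := by positivity
  linarith

theorem top_mem (hF : IsLSeries a b F) (r : ℕ) {s : ℂ} (hs : F s = 0) (hs1 : 1 < s.re) :
    ∞ ∈ limSet a b r := by
  have hθ : 0 < (s.re - 1) / 2 := by linarith
  have h1 := omega_up hF hs hθ.le (by linarith)
  show MapClusterPt _ _ _
  rw [mapClusterPt_iff_frequently]
  intro S hS
  obtain ⟨v, hv, hvS⟩ : ∃ v : ℝ≥0∞, v < ∞ ∧ Ioi v ⊆ S := by
    obtain ⟨v, hv, h2⟩ := exists_Ioc_subset_of_mem_nhds hS ⟨0, ENNReal.zero_lt_top⟩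
    exact ⟨v, hv, fun y hy => h2 ⟨hy, le_top⟩⟩
  have hvt : v ≠ ∞ := hv.ne
  have h2 := pow_log_small hθ r (Real.log (v.toReal + 1))
  refine (h1.and_eventually (h2.and (eventually_gt_atTop 1))).mono fun x hx => ?_
  obtain ⟨h3, h4, h5⟩ := hx
  apply hvS
  rw [mem_Ioi, nrm_eq h5, ENNReal.lt_ofReal_iff_toReal_lt hvt]
  have hv0 : 0 ≤ v.toReal := ENNReal.toReal_nonneg
  have h6 : Real.log (v.toReal + 1) < lg a b r x := by
    unfold lg
    linarith
  have h7 := (Real.log_lt_iff_lt_exp (by linarith)).1 h6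
  linarith

theorem zero_mem (hF : IsLSeries a b F) (hne : ∀ t : ℝ, 1 < t → F t ≠ 0) (r : ℕ) {s : ℂ}
    (hs : F s = 0) (hs1 : 1 < s.re) : (0 : ℝ≥0∞) ∈ limSet a b r := by
  have hθ : 0 < (s.re - 1) / 2 := by linarith
  have h1 := omega_down hF hne hs hθ.le (by linarith)
  show MapClusterPt _ _ _
  rw [mapClusterPt_iff_frequently]
  intro S hS
  obtain ⟨v, hv, hvS⟩ : ∃ v : ℝ≥0∞, 0 < v ∧ Iio v ⊆ S := by
    obtain ⟨v, hv, h2⟩ := exists_Ico_subset_of_mem_nhds hS ⟨∞, ENNReal.zero_lt_top⟩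
    exact ⟨v, hv, fun y hy => h2 ⟨bot_le, hy⟩⟩
  -- a real positive number below `v`
  obtain ⟨w, hw0, hwv⟩ := exists_between hv
  have hwt : w ≠ ∞ := (lt_of_lt_of_le hwv le_top).ne
  have hwp : 0 < w.toReal := ENNReal.toReal_pos hw0.ne' hwt
  have h2 := pow_log_small hθ 0 (-Real.log w.toReal)
  refine (h1.and_eventually (h2.and (eventually_gt_atTop (Real.exp 1)))).mono fun x hx => ?_
  obtain ⟨h3, h4, h5⟩ := hx
  have hx0 : 0 < x := (Real.exp_pos 1).trans h5
  have hl : 1 < Real.log x := (Real.lt_log_iff_exp_lt hx0).2 h5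
  have hx1 : 1 < x := by
    have := Real.add_one_le_exp (1 : ℝ)
    linarith
  apply hvS
  refine lt_trans ?_ hwv
  rw [nrm_eq hx1, ENNReal.ofReal_lt_iff_lt_toReal (Real.exp_pos _).le hwt]
  have h6 : lg a b r x < Real.log w.toReal := by
    unfold lg
    have h7 : 0 ≤ Real.log (Real.log x) := Real.log_nonneg hl.le
    have h8 : 0 ≤ (r : ℝ) * Real.log (Real.log x) := by positivity
    simp only [Nat.cast_zero, zero_mul, add_zero] at h4
    linarith
  exact (Real.lt_log_iff_exp_lt hwp).1 h6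

theorem all_mem (hH : Hasse a b) (hF : IsLSeries a b F) (hne : ∀ t : ℝ, 1 < t → F t ≠ 0) (r : ℕ) {s : ℂ}
    (hs : F s = 0) (hs1 : 1 < s.re) : limSet a b r = univ := by
  refine eq_univ_of_forall fun v => ?_
  exact (limSet_ordConnected hH r).out (zero_mem hF hne r hs hs1) (top_mem hF r hs hs1) ⟨bot_le, le_top⟩

/-- the asymptotic formula holds exactly if there is only one limit point, `T` -/
theorem asy_iff (hΔ : 4 * a ^ 3 + 27 * b ^ 2 ≠ 0) (hrs : Tendsto (rsSum a b) atTop (𝓝 0))
    (hH : Hasse a b) (hF : IsLSeries a b F) {r : ℕ} (hr : analyticOrderAt F 1 = r) :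
    (∃ A : ℝ, A ≠ 0 ∧ Tendsto (fun x : ℝ => bsdProduct a b x / Real.log x ^ r) atTop (𝓝 A)) ↔
      limSet a b r = {ENNReal.ofReal (TT F r)} := by
  have hT := TT_pos hF hr
  constructor
  · rintro ⟨A, hA, h⟩
    have hA0 : 0 ≤ A := by
      refine ge_of_tendsto h ?_
      filter_upwards [eventually_gt_atTop 1] with x hx
      exact div_nonneg (bsdProduct_pos x).le (pow_pos (Real.log_pos hx) r).le
    have hAp : 0 < A := lt_of_le_of_ne hA0 (Ne.symm hA)
    have h1 : Asy a b r A := by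
      unfold Asy
      simpa only [Real.rpow_natCast] using h
    have h2 : Asy a b r (TT F r) := by
      have := (main_asy hΔ hrs hH hF hr r).out 0 1
      exact (this.mp ⟨A, hAp, h1⟩).2
    have h3 : Tendsto (fun x : ℝ => bsdProduct a b x / Real.log x ^ r) atTop (𝓝 (TT F r)) := by
      unfold Asy at h2
      simpa only [Real.rpow_natCast] using h2
    have h4 : Tendsto (nrm a b r) atTop (𝓝 (ENNReal.ofReal (TT F r))) :=
      (ENNReal.continuous_ofReal.tendsto _).comp h3
    ext v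
    rw [mem_singleton_iff]
    constructor
    · intro hv
      exact (tendsto_nhds_unique_of_frequently_eq_aux h4 hv)
    · rintro rfl
      exact h4.mapClusterPt
  · intro h
    refine ⟨TT F r, hT.ne', ?_⟩
    have h1 : Tendsto (nrm a b r) atTop (𝓝 (ENNReal.ofReal (TT F r))) := by
      refine tendsto_of_unique_cluster fun v hv => ?_
      have : v ∈ limSet a b r := hv
      rw [h] at this
      exact this
    have h2 := (ENNReal.tendsto_toReal ENNReal.ofReal_ne_top).comp h1
    rw [ENNReal.toReal_ofReal hT.le] at h2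
    refine h2.congr' ?_
    filter_upwards [eventually_gt_atTop 1] with x hx
    simp only [Function.comp_apply, nrm]
    exact ENNReal.toReal_ofReal (div_nonneg (bsdProduct_pos x).le (pow_pos (Real.log_pos hx) r).le)

end Pool.Agent.T9h58.BSD
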